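import Pool.Agent.W211.AF.Red

/-!
# Project AF (helper211): the cover lemma for words
-/

set_option autoImplicit false

namespace Pool.Agent.W211.AF.CovC

open FreeGroup Pool.Agent.W211.AF

theorem mem_ball {M : ℕ} {l : List Lt} : l ∈ ball M ↔ l.length ≤ M := by
  unfold ball
  rw [Set.Finite.mem_toFinset, Set.mem_ofPred_eq]

theorem red_cancel (s' l' : List Lt) (x : Lt) :
    reduce (s' ++ [x] ++ (x.1, !x.2) :: l') = reduce (s' ++ l') := by
  apply reduce.Step.eq
  rw [List.append_assoc]
  exact Red.Step.not

theorem red_append {s' l' : List Lt} {x y : Lt} (hs : IsReduced (s' ++ [x]))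
    (hl : IsReduced (y :: l')) (h : y ≠ (x.1, !x.2)) :
    reduce (s' ++ [x] ++ y :: l') = s' ++ [x] ++ y :: l' := by
  apply IsReduced.reduce_eq
  apply IsReduced.append_overlap hs _ (by simp)
  show IsReduced (x :: y :: l')
  rw [isReduced_cons_cons]
  refine ⟨fun h1 => ?_, hl⟩
  by_contra h2
  apply h
  refine Prod.ext h1.symm ?_
  · show y.2 = !x.2
    rcases x with ⟨x1, x2⟩
    rcases y with ⟨y1, y2⟩
    cases x2 <;> cases y2 <;> simp_all

theorem prefix_mem {M : ℕ} {l : List Lt} {π : Pat} (h : l ∈ XL M π) (s : List Lt) :
    s ++ l ∈ XL M (s.map some ++ π) := by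
  induction s with
  | nil => exact h
  | cons y s ih =>
    simp only [List.map_cons, List.cons_append, XL]
    exact Finset.mem_union_left _ (Finset.mem_image_of_mem _ ih)

theorem mono_some (M : ℕ) (s : List Lt) (x : Lt) :
    XL M (s.map some) ⊆ XL M ((s ++ [x]).map some) := by
  induction s with
  | nil =>
    simp only [List.map_nil, List.nil_append, List.map_cons, XL]
    rw [if_neg (by simp)]
    exact Finset.subset_union_right
  | cons y s ih =>
    simp only [List.map_cons, List.cons_append, XL]
    rw [if_neg (by simp), if_neg (by simp)]
    exact Finset.union_subset_union (Finset.image_subset_image ih) subset_rfl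

theorem case2 (M : ℕ) (σ : List Lt) : ∀ l : List Lt, IsReduced σ.reverse → IsReduced l →
    l ∈ ball M → reduce (σ.reverse ++ l) ∈ XL M (σ.reverse.map some) := by
  induction σ with
  | nil =>
    intro l _ hl hM
    simp only [List.reverse_nil, List.nil_append, List.map_nil, XL]
    rw [hl.reduce_eq]
    exact hM
  | cons x σ ih =>
    intro l hs hl hM
    rw [List.reverse_cons] at hs ⊢
    have hs' : IsReduced σ.reverse := Pool.Agent.W211.AF.isRed_of_sub hs ⟨[], [x], by simp⟩
    rcases l with _ | ⟨y, l'⟩
    · rw [List.append_nil, hs.reduce_eq]
      have h1 := prefix_mem (π := []) (show ([] : List Lt) ∈ XL M [] from hM) (σ.reverse ++ [x])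
      rwa [List.append_nil, List.append_nil] at h1
    · by_cases h : y = (x.1, !x.2)
      · rw [h, red_cancel]
        apply mono_some
        apply ih l' hs' (Pool.Agent.W211.AF.isRed_of_sub hl ⟨[y], [], by simp⟩)
        rw [mem_ball] at hM ⊢
        rw [List.length_cons] at hM
        omega
      · rw [red_append hs hl h]
        have h1 := prefix_mem (π := []) (show (y :: l') ∈ XL M [] from hM) (σ.reverse ++ [x])
        rwa [List.append_nil] at h1

theorem cov_main (M : ℕ) (σ : List Lt) : ∀ (l : List Lt) (π : Pat), IsReduced σ.reverse →
    IsReduced l → l ∈ XL M π → (∃ π' ∈ cov σ π, reduce (σ.reverse ++ l) ∈ XL M π') ∨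
      reduce (σ.reverse ++ l) ∈ XL M (σ.reverse.map some) := by
  induction σ with
  | nil =>
    intro l π _ hl hM
    left
    refine ⟨π, by simp [cov], ?_⟩
    rw [List.reverse_nil, List.nil_append, hl.reduce_eq]
    exact hM
  | cons x σ ih =>
    intro l π hs hl hM
    have hs2 : IsReduced (σ.reverse ++ [x]) := by rwa [List.reverse_cons] at hs
    have hs' : IsReduced σ.reverse := Pool.Agent.W211.AF.isRed_of_sub hs2 ⟨[], [x], by simp⟩
    rcases π with _ | ⟨o, π1⟩
    · right
      exact case2 M (x :: σ) l hs hl hM
    · rcases o with _ | y
      · have h1 : ∃ (y : Lt) (l' : List Lt), y.2 = true ∧ l = y :: l' ∧ l' ∈ XL M π1 := by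
          simp only [XL, Finset.mem_union, Finset.mem_image] at hM
          rcases hM with ⟨l', h1, h2⟩ | ⟨l', h1, h2⟩
          · exact ⟨_, l', rfl, h2.symm, h1⟩
          · exact ⟨_, l', rfl, h2.symm, h1⟩
        obtain ⟨y, l', hy, hll, hl'⟩ := h1
        by_cases h : y = (x.1, !x.2)
        · have hx : x.2 = false := by
            rw [h] at hy
            simpa using hy
          have e : reduce ((x :: σ).reverse ++ l) = reduce (σ.reverse ++ l') := by
            rw [hll, h, List.reverse_cons, red_cancel]
          rw [e]
          rcases ih l' π1 hs' (Pool.Agent.W211.AF.isRed_of_sub hl ⟨[y], [], by simp [hll]⟩) hl' with ⟨π', h2, h3⟩ | h2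
          · left
            refine ⟨π', ?_, h3⟩
            simp only [cov]
            rw [if_pos hx]
            exact List.mem_cons_of_mem _ h2
          · right
            rw [List.reverse_cons]
            exact mono_some M _ x h2
        · left
          refine ⟨(x :: σ).reverse.map some ++ none :: π1, ?_, ?_⟩
          · simp only [cov]
            exact List.mem_cons_self
          · have e : reduce ((x :: σ).reverse ++ l) = (x :: σ).reverse ++ l := by
              rw [List.reverse_cons, hll]
              exact red_append hs2 (hll ▸ hl) h
            rw [e]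
            exact prefix_mem hM _
      · have hM' := hM
        simp only [XL, Finset.mem_union, Finset.mem_image] at hM
        rcases hM with ⟨l', h1, h2⟩ | h1
        · by_cases h : y = (x.1, !x.2)
          · have e : reduce ((x :: σ).reverse ++ l) = reduce (σ.reverse ++ l') := by
              rw [← h2, h, List.reverse_cons, red_cancel]
            rw [e]
            rcases ih l' π1 hs' (Pool.Agent.W211.AF.isRed_of_sub hl ⟨[y], [], by simp [← h2]⟩) h1 with ⟨π', h3, h4⟩ | h3
            · left
              refine ⟨π', ?_, h4⟩
              simp only [cov]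
              rw [if_pos h]
              exact h3
            · right
              rw [List.reverse_cons]
              exact mono_some M _ x h3
          · left
            refine ⟨(x :: σ).reverse.map some ++ some y :: π1, ?_, ?_⟩
            · simp only [cov]
              rw [if_neg h]
              exact List.mem_singleton_self _
            · have e : reduce ((x :: σ).reverse ++ l) = (x :: σ).reverse ++ l := by
                rw [List.reverse_cons, ← h2]
                exact red_append hs2 (h2 ▸ hl) h
              rw [e]
              exact prefix_mem hM' _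
        · right
          split_ifs at h1 with h3
          · exact absurd h1 (Finset.notMem_empty _)
          · exact case2 M (x :: σ) l hs hl h1

theorem main : Pool.Agent.W211.AF.S_COV := by
  intro M s l π hs hl hM
  have h := cov_main M s.reverse l π (by rwa [List.reverse_reverse]) hl hM
  rwa [List.reverse_reverse] at h

end Pool.Agent.W211.AF.CovC
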