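import Pool.Agent.W211.AF.Red

/-! Project AF (helper211, MP_11aa79_an): one step of the recursion. -/

set_option autoImplicit false

namespace Pool.Agent.W211.AF.RecC

open FreeGroup Pool.Agent.W211.AF

theorem KL0 {K : G → ℝ} (hK : ∀ g, 0 ≤ K g) (l : List Lt) : 0 ≤ KL K l := by
  unfold KL
  split_ifs
  · exact hK _
  · exact le_rfl

theorem KL_red {K : G → ℝ} {l : List Lt} (h : reduce l = l) : KL K l = K (mk l) := if_pos h

theorem KL_toWord {K : G → ℝ} (g : G) : KL K g.toWord = K g := by
  rw [KL_red (reduce_toWord g), mk_toWord]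

/-- union bound for a list of sets -/
theorem sum_le_cover (f : List Lt → ℝ) (hf : ∀ l, 0 ≤ f l) (X : Pat → Finset (List Lt))
    (X0 : Finset (List Lt)) (L : List Pat) :
    ∀ S : Finset (List Lt), (∀ w ∈ S, (∃ π ∈ L, w ∈ X π) ∨ w ∈ X0) →
    ∑ w ∈ S, f w ≤ (L.map (fun π => ∑ w ∈ X π, f w)).sum + ∑ w ∈ X0, f w := by
  classical
  induction L with
  | nil =>
    intro S h
    simp only [List.map_nil, List.sum_nil, zero_add]
    exact Finset.sum_le_sum_of_subset_of_nonneg (fun w hw => by simpa using h w hw)
      (fun w _ _ => hf w)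
  | cons π L ih =>
    intro S h
    rw [← Finset.sum_filter_add_sum_filter_not S (fun w => w ∈ X π)]
    have h1 : ∑ w ∈ S.filter (fun w => w ∈ X π), f w ≤ ∑ w ∈ X π, f w :=
      Finset.sum_le_sum_of_subset_of_nonneg (fun w hw => (Finset.mem_filter.1 hw).2)
        (fun w _ _ => hf w)
    have h2 := ih (S.filter (fun w => ¬ w ∈ X π)) (by
      intro w hw
      rw [Finset.mem_filter] at hw
      rcases h w hw.1 with ⟨π', hπ', hm⟩ | h0
      · rcases List.mem_cons.1 hπ' with rfl | h3
        · exact absurd hm hw.2
        · exact Or.inl ⟨π', h3, hm⟩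
      · exact Or.inr h0)
    simp only [List.map_cons, List.sum_cons]
    linarith

/-- the reduced words over which we sum -/
noncomputable def ES (M : ℕ) (π : Pat) : Finset (List Lt) :=
  (XL M π).filter (fun l => reduce l = l ∧ (none ∈ π ∨ l ∉ ball M))

theorem mem_ES {M : ℕ} {π : Pat} {l : List Lt} :
    l ∈ ES M π ↔ l ∈ XL M π ∧ reduce l = l ∧ (none ∈ π ∨ l ∉ ball M) := by
  unfold ES
  rw [Finset.mem_filter]

theorem ES_cons {M : ℕ} {π : Pat} {l : List Lt} {y : Lt} (h : l ∈ ES M (some y :: π)) :
    ∃ l' ∈ XL M π, l = y :: l' := by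
  rw [mem_ES] at h
  obtain ⟨h1, _, h3⟩ := h
  rw [XL, Finset.mem_union] at h1
  rcases h1 with h1 | h1
  · obtain ⟨l', hl', rfl⟩ := Finset.mem_image.1 h1
    exact ⟨l', hl', rfl⟩
  · exfalso
    split_ifs at h1 with h4
    · simp at h1
    · rcases h3 with h3 | h3
      · apply h4
        simpa using h3
      · exact h3 h1

theorem ES_neg {M : ℕ} {π : Pat} {l l' : List Lt} {j : Fin 2} (h : l ∈ ES M π)
    (hl : l = (j, false) :: l') : negHead π = true := by
  cases π with
  | nil =>
    rw [mem_ES] at h
    obtain ⟨h1, _, h3⟩ := h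
    rcases h3 with h3 | h3
    · simp at h3
    · exact absurd h1 h3
  | cons x π =>
    cases x with
    | none =>
      rw [mem_ES] at h
      obtain ⟨h1, _, h3⟩ := h
      rw [XL, Finset.mem_union, Finset.mem_image, Finset.mem_image] at h1
      rcases h1 with ⟨a, _, ha⟩ | ⟨a, _, ha⟩
      · rw [hl] at ha
        simp at ha
      · rw [hl] at ha
        simp at ha
    | some y =>
      obtain ⟨l'', _, h2⟩ := ES_cons h
      rw [hl] at h2
      have : y = (j, false) := by
        simp at h2
        exact h2.1.symm
      rw [this]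
      rfl

theorem negHead_cases {π : Pat} (h : negHead π = true) :
    ∃ (j : Fin 2) (π' : Pat), π = some (j, false) :: π' := by
  cases π with
  | nil => simp [negHead] at h
  | cons x π =>
    cases x with
    | none => simp [negHead] at h
    | some y =>
      obtain ⟨j, b⟩ := y
      cases b with
      | true => simp [negHead] at h
      | false => exact ⟨j, π, rfl⟩

theorem step1 {K : G → ℝ} (hK : ∀ g, 0 ≤ K g) (j : Fin 2) {l : List Lt} (hl : reduce l = l) :
    K (of j * mk l) ≤ KL K ((j, true) :: l) +
      (if l.head? = some (j, false) then KL K l.tail else 0) := by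
  cases l with
  | nil =>
    have h1 : reduce [((j, true) : Lt)] = [(j, true)] := reduce_singleton _
    rw [KL_red h1]
    simp only [List.head?_nil, reduceCtorEq, if_false, add_zero]
    apply le_of_eq
    congr 1
  | cons a t =>
    have hr : IsReduced (a :: t) := isReduced_iff_reduce_eq.2 hl
    by_cases ha : a = (j, false)
    · subst ha
      have ht : IsReduced t := by
        apply Pool.Agent.W211.AF.isRed_of_sub hr
        exact ⟨[(j, false)], [], by simp⟩
      have ht' : reduce t = t := isReduced_iff_reduce_eq.1 ht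
      simp only [List.head?_cons, if_true, List.tail_cons]
      rw [KL_red ht']
      have e : (of j : G) * mk ((j, false) :: t) = mk t := by
        have e1 : (mk ((j, false) :: t) : G) = (of j)⁻¹ * mk t := rfl
        rw [e1, mul_inv_cancel_left]
      rw [e]
      have := KL0 hK ((j, true) :: (j, false) :: t)
      linarith
    · have hr2 : IsReduced ((j, true) :: a :: t) := by
        rw [isReduced_cons_cons]
        refine ⟨fun h1 => ?_, hr⟩
        obtain ⟨a1, a2⟩ := a
        cases a2 with
        | true => rfl
        | false =>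
          exfalso
          apply ha
          simp only at h1
          rw [h1]
      rw [KL_red (isReduced_iff_reduce_eq.1 hr2)]
      have : ¬ ((a :: t).head? = some (j, false)) := by
        intro h
        apply ha
        simpa using h
      rw [if_neg this, add_zero]
      apply le_of_eq
      congr 1

theorem step2 {K : G → ℝ} (hK : ∀ g, 0 ≤ K g) {M : ℕ} {π : Pat} {l : List Lt}
    (h : l ∈ ES M π) :
    K (of 0 * mk l) + K (of 1 * mk l) ≤ KL K ((0, true) :: l) + KL K ((1, true) :: l) +
      (if negHead π = true then KL K l.tail else 0) := by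
  have hl : reduce l = l := (mem_ES.1 h).2.1
  have h0 := step1 hK 0 hl
  have h1 := step1 hK 1 hl
  have h3 : (if l.head? = some ((0 : Fin 2), false) then KL K l.tail else 0) +
      (if l.head? = some ((1 : Fin 2), false) then KL K l.tail else 0) ≤
      (if negHead π = true then KL K l.tail else 0) := by
    cases l with
    | nil =>
      simp only [List.head?_nil, reduceCtorEq, if_false, add_zero]
      split_ifs
      · exact KL0 hK _
      · exact le_rfl
    | cons a t =>
      have hk := KL0 hK t
      by_cases ha : a.2 = false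
      · obtain ⟨j, b⟩ := a
        simp only at ha
        subst ha
        rw [if_pos (ES_neg h rfl)]
        simp only [List.head?_cons, List.tail_cons]
        fin_cases j
        · simp
        · simp
      · have hA : ∀ j : Fin 2, ¬ ((a :: t).head? = some (j, false)) := by
          intro j hj
          apply ha
          simp only [List.head?_cons, Option.some.injEq] at hj
          rw [hj]
        rw [if_neg (hA 0), if_neg (hA 1)]
        split_ifs
        · simpa using hk
        · simp
  linarith

/-- sum over the image -/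
theorem sum_up {K : G → ℝ} (hK : ∀ g, 0 ≤ K g) (M : ℕ) (π : Pat) :
    ∑ l ∈ ES M π, (KL K ((0, true) :: l) + KL K ((1, true) :: l)) ≤ P K M (none :: π) := by
  have h1 : P K M (none :: π) =
      ∑ l ∈ XL M π, (KL K ((0, true) :: l) + KL K ((1, true) :: l)) := by
    unfold P
    rw [XL, Finset.sum_union, Finset.sum_image, Finset.sum_image, Finset.sum_add_distrib]
    · intro a _ b _ hab
      simpa using hab
    · intro a _ b _ hab
      simpa using hab
    · rw [Finset.disjoint_left]
      intro a ha hb
      obtain ⟨x, _, rfl⟩ := Finset.mem_image.1 ha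
      obtain ⟨y, _, hy⟩ := Finset.mem_image.1 hb
      simp at hy
  rw [h1]
  apply Finset.sum_le_sum_of_subset_of_nonneg
  · intro l hl
    exact (mem_ES.1 hl).1
  · intro l _ _
    exact add_nonneg (KL0 hK _) (KL0 hK _)

theorem sum_down {K : G → ℝ} (hK : ∀ g, 0 ≤ K g) (M : ℕ) (π : Pat) :
    ∑ l ∈ ES M π, (if negHead π = true then KL K l.tail else 0) ≤
      (if negHead π = true then P K M π.tail else 0) := by
  by_cases h : negHead π = true
  · simp only [if_pos h]
    obtain ⟨j, π', rfl⟩ := negHead_cases h
    simp only [List.tail_cons]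
    have h1 : ∀ l ∈ ES M (some (j, false) :: π'), l = (j, false) :: l.tail ∧
        l.tail ∈ XL M π' := by
      intro l hl
      obtain ⟨l', h2, h3⟩ := ES_cons hl
      subst h3
      exact ⟨rfl, h2⟩
    have h2 : ∑ l ∈ ES M (some (j, false) :: π'), KL K l.tail =
        ∑ w ∈ (ES M (some (j, false) :: π')).image List.tail, KL K w := by
      rw [Finset.sum_image]
      intro a ha b hb hab
      rw [(h1 a ha).1, (h1 b hb).1, hab]
    rw [h2]
    unfold P
    apply Finset.sum_le_sum_of_subset_of_nonneg
    · intro w hw
      obtain ⟨a, ha, rfl⟩ := Finset.mem_image.1 hw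
      exact (h1 a ha).2
    · intro l _ _
      exact KL0 hK _
  · simp only [if_neg h]
    simp

theorem sum_F {F : G → ℝ} (hF : ∀ g, 0 ≤ F g) (hs : Summable F) (M : ℕ) (π : Pat) :
    ∑ l ∈ ES M π, F (mk l) ≤ ∑' g, F g := by
  classical
  have h2 : ∑ l ∈ ES M π, F (mk l) = ∑ g ∈ (ES M π).image (fun l => (mk l : G)), F g := by
    rw [Finset.sum_image]
    intro a ha b hb hab
    have ha' := (mem_ES.1 ha).2.1
    have hb' := (mem_ES.1 hb).2.1
    rw [← ha', ← hb']
    exact reduce.sound hab
  rw [h2]
  exact hs.sum_le_tsum _ (fun g _ => hF g)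

theorem sum_s (hC : S_COV) {K : G → ℝ} (hK : ∀ g, 0 ≤ K g) (M : ℕ) (π : Pat) (s : G) :
    ∑ l ∈ ES M π, K (s * mk l) ≤
      ((cov s.toWord.reverse π).map (P K M)).sum + P K M (s.toWord.map some) := by
  have e : ∀ l ∈ ES M π, (s * mk l).toWord = reduce (s.toWord ++ l) := by
    intro l hl
    rw [toWord_mul, toWord_mk, (mem_ES.1 hl).2.1]
  have h1 : ∑ l ∈ ES M π, K (s * mk l) = ∑ l ∈ ES M π, KL K (s * mk l).toWord := by
    apply Finset.sum_congr rfl
    intro l _
    rw [KL_toWord]
  have h2 : ∑ l ∈ ES M π, KL K (s * mk l).toWord =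
      ∑ w ∈ (ES M π).image (fun l => (s * mk l).toWord), KL K w := by
    rw [Finset.sum_image]
    intro a ha b hb hab
    have ha' := (mem_ES.1 ha).2.1
    have hb' := (mem_ES.1 hb).2.1
    have h3 := toWord_injective hab
    have h4 := mul_left_cancel h3
    rw [← ha', ← hb']
    exact reduce.sound h4
  rw [h1, h2]
  refine sum_le_cover (KL K) (KL0 hK) (XL M) (XL M (s.toWord.map some))
    (cov s.toWord.reverse π) _ ?_
  intro w hw
  obtain ⟨l, hl, rfl⟩ := Finset.mem_image.1 hw
  rw [e l hl]
  obtain ⟨hl1, hl2, _⟩ := mem_ES.1 hl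
  exact hC M s.toWord l π isReduced_toWord (isReduced_iff_reduce_eq.2 hl2) hl1

theorem main : S_REC := by
  classical
  intro hC al K F Q r hS M π
  have hK := hS.K0
  have hal : 0 ≤ al := le_trans (by norm_num) hS.al1
  -- split
  have h1 : P K M π ≤ (if none ∈ π then 0 else T K M) + ∑ l ∈ ES M π, K (mk l) := by
    unfold P
    rw [← Finset.sum_filter_add_sum_filter_not (XL M π)
      (fun l => reduce l = l ∧ (none ∈ π ∨ l ∉ ball M)), add_comm]
    apply add_le_add
    · by_cases hn : none ∈ π
      · rw [if_pos hn]
        apply le_of_eq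
        apply Finset.sum_eq_zero
        intro l hl
        rw [Finset.mem_filter] at hl
        unfold KL
        rw [if_neg]
        intro h
        exact hl.2 ⟨h, Or.inl hn⟩
      · rw [if_neg hn]
        have h2 : ∑ l ∈ (XL M π).filter
            (fun l => ¬ (reduce l = l ∧ (none ∈ π ∨ l ∉ ball M))), KL K l =
            ∑ l ∈ ((XL M π).filter
            (fun l => ¬ (reduce l = l ∧ (none ∈ π ∨ l ∉ ball M)))).filter
              (fun l => l ∈ ball M), KL K l := by
          rw [Finset.sum_filter (fun l => l ∈ ball M)]
          apply Finset.sum_congr rfl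
          intro l hl
          split_ifs with hb
          · rfl
          · rw [Finset.mem_filter] at hl
            unfold KL
            rw [if_neg]
            intro h
            exact hl.2 ⟨h, Or.inr hb⟩
        rw [h2]
        unfold T
        apply Finset.sum_le_sum_of_subset_of_nonneg
        · intro l hl
          exact (Finset.mem_filter.1 hl).2
        · intro l _ _
          exact KL0 hK _
    · apply le_of_eq
      apply Finset.sum_congr rfl
      intro l hl
      exact KL_red (mem_ES.1 hl).2.1
  have h2 : ∑ l ∈ ES M π, K (mk l) ≤ ∑ l ∈ ES M π, (F (mk l) +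
      al * (KL K ((0, true) :: l) + KL K ((1, true) :: l)) +
      al * (if negHead π = true then KL K l.tail else 0) +
      r.sum fun s c => c * K (s * mk l)) := by
    apply Finset.sum_le_sum
    intro l hl
    have := hS.h1 (mk l)
    have h3 := mul_le_mul_of_nonneg_left (step2 hK hl) hal
    linarith
  have h3 : ∑ l ∈ ES M π, (F (mk l) +
      al * (KL K ((0, true) :: l) + KL K ((1, true) :: l)) +
      al * (if negHead π = true then KL K l.tail else 0) +
      r.sum fun s c => c * K (s * mk l)) =
      ∑ l ∈ ES M π, F (mk l) +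
      al * (∑ l ∈ ES M π, (KL K ((0, true) :: l) + KL K ((1, true) :: l))) +
      al * (∑ l ∈ ES M π, (if negHead π = true then KL K l.tail else 0)) +
      r.sum fun s c => c * ∑ l ∈ ES M π, K (s * mk l) := by
    rw [Finset.sum_add_distrib, Finset.sum_add_distrib, Finset.sum_add_distrib,
      Finset.mul_sum, Finset.mul_sum]
    congr 1
    unfold Finsupp.sum
    rw [Finset.sum_comm]
    apply Finset.sum_congr rfl
    intro s _
    show ∑ x ∈ ES M π, r s * K (s * mk x) = r s * ∑ l ∈ ES M π, K (s * mk l)
    rw [Finset.mul_sum]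
  have h4 : (r.sum fun s c => c * ∑ l ∈ ES M π, K (s * mk l)) ≤
      r.sum fun s c => c * (((cov s.toWord.reverse π).map (P K M)).sum
        + P K M (s.toWord.map some)) := by
    unfold Finsupp.sum
    apply Finset.sum_le_sum
    intro s _
    exact mul_le_mul_of_nonneg_left (sum_s hC hK M π s) (hS.r0 s)
  have h5 := sum_F hS.F0 hS.F1 M π
  have h6 := mul_le_mul_of_nonneg_left (sum_up hK M π) hal
  have h7 := mul_le_mul_of_nonneg_left (sum_down hK M π) hal
  have h8 : al * (if negHead π = true then P K M π.tail else 0) =
      (if negHead π = true then al * P K M π.tail else 0) := by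
    split_ifs
    · rfl
    · simp
  rw [h8] at h7
  rw [h3] at h2
  linarith

end Pool.Agent.W211.AF.RecC
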