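import Pool.Agent.W211.AF.Red

set_option autoImplicit false

namespace Pool.Agent.W211.AF.StaC

open FreeGroup Pool.Agent.W211.AF

lemma inv_cons_cons (x : Lt) (u ξ : List Lt) :
    (mk (x :: u) : G)⁻¹ * mk (x :: ξ) = (mk u)⁻¹ * mk ξ := by
  have h1 : (mk (x :: u) : G) = mk [x] * mk u := by rw [mul_mk]; rfl
  have h2 : (mk (x :: ξ) : G) = mk [x] * mk ξ := by rw [mul_mk]; rfl
  rw [h1, h2]; group

lemma inv_cons (x : Lt) (u ξ : List Lt) :
    (mk (x :: u) : G)⁻¹ * mk ξ = (mk u)⁻¹ * mk ((x.1, !x.2) :: ξ) := by
  have h1 : (mk (x :: u) : G) = mk [x] * mk u := by rw [mul_mk]; rfl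
  have h2 : (mk ((x.1, !x.2) :: ξ) : G) = (mk [x])⁻¹ * mk ξ := by
    rw [inv_mk, mul_mk]; rfl
  rw [h1, h2]; group

/-- the length function along a word -/
def f (w ξ : List Lt) (i : ℕ) : ℕ := ((mk (w.take i) : G)⁻¹ * mk ξ).toWord.length

lemma f_zero (w ξ : List Lt) (hξ : IsReduced ξ) : f w ξ 0 = ξ.length := by
  unfold f
  have : (mk (w.take 0) : G) = 1 := rfl
  rw [this, inv_one, one_mul, toWord_mk, hξ.reduce_eq]

lemma f_cons_cons (x : Lt) (w ξ : List Lt) (i : ℕ) : f (x :: w) (x :: ξ) (i + 1) = f w ξ i := by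
  unfold f
  rw [List.take_succ_cons, inv_cons_cons]

lemma f_cons (x : Lt) (w ξ : List Lt) (i : ℕ) :
    f (x :: w) ξ (i + 1) = f w ((x.1, !x.2) :: ξ) i := by
  unfold f
  rw [List.take_succ_cons, inv_cons]

lemma case2 : ∀ (w ξ : List Lt), IsReduced w → IsReduced ξ →
    (∀ x w', w = x :: w' → ∀ y ξ', ξ = y :: ξ' → x ≠ y) → ∀ i ≤ w.length,
    f w ξ i = ξ.length + i := by
  intro w
  induction w with
  | nil =>
    intro ξ _ hξ _ i hi
    have : i = 0 := by simpa using hi
    subst this
    rw [f_zero _ _ hξ]; rfl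
  | cons x w ih =>
    intro ξ hw hξ h i hi
    rcases i with _ | i
    · rw [f_zero _ _ hξ]; rfl
    · rw [f_cons]
      have hw' : IsReduced w := by
        cases w with
        | nil => exact IsReduced.nil
        | cons y w => exact ((FreeGroup.isReduced_cons_cons).1 hw).2
      have hξ' : IsReduced ((x.1, !x.2) :: ξ) := by
        cases ξ with
        | nil => exact IsReduced.singleton
        | cons y ξ =>
          rw [FreeGroup.isReduced_cons_cons]
          refine ⟨fun e => ?_, hξ⟩
          have hne := h x w rfl y ξ rfl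
          simp only at e ⊢
          by_contra hc
          apply hne
          apply Prod.ext e
          revert hc
          cases x.2 <;> cases y.2 <;> simp
      rw [ih _ hw' hξ' ?_ i (by simpa using hi)]
      · simp only [List.length_cons]; omega
      · intro y w' e z ξ' e'
        have ez : (x.1, !x.2) = z := (List.cons.inj e').1
        subst e
        have := ((FreeGroup.isReduced_cons_cons).1 hw).1
        rintro rfl
        rw [← ez] at this
        have h2 := this rfl
        revert h2
        simp

lemma count_case2 (w ξ : List Lt) (hw : IsReduced w) (hξ : IsReduced ξ)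
    (h : ∀ x w', w = x :: w' → ∀ y ξ', ξ = y :: ξ' → x ≠ y) (n : ℕ) :
    ∑ i ∈ Finset.range (w.length + 1), (if f w ξ i = n then 1 else 0) ≤ 1 := by
  rw [← Finset.card_filter, Finset.card_le_one]
  intro a ha b hb
  rw [Finset.mem_filter, Finset.mem_range] at ha hb
  have h1 := case2 w ξ hw hξ h a (by omega)
  have h2 := case2 w ξ hw hξ h b (by omega)
  omega

lemma count : ∀ (w ξ : List Lt), IsReduced w → IsReduced ξ → ∀ n : ℕ,
    ∑ i ∈ Finset.range (w.length + 1), (if f w ξ i = n then 1 else 0) ≤ 2 ∧
    (ξ.length < n →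
      ∑ i ∈ Finset.range (w.length + 1), (if f w ξ i = n then 1 else 0) ≤ 1) := by
  intro w
  induction w with
  | nil =>
    intro ξ hw hξ n
    have h1 := count_case2 [] ξ hw hξ (by intro x w' e; cases e) n
    exact ⟨by omega, fun _ => h1⟩
  | cons x w ih =>
    intro ξ hw hξ n
    by_cases h : ∀ y ξ', ξ = y :: ξ' → x ≠ y
    · have h1 := count_case2 (x :: w) ξ hw hξ (by
        intro a w' e y ξ' e'
        have := (List.cons.inj e).1
        subst this
        exact h y ξ' e') n
      exact ⟨by omega, fun _ => h1⟩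
    · push Not at h
      obtain ⟨y, ξ', rfl, rfl⟩ := h
      have hw' : IsReduced w := by
        cases w with
        | nil => exact IsReduced.nil
        | cons y w => exact ((FreeGroup.isReduced_cons_cons).1 hw).2
      have hξ' : IsReduced ξ' := by
        cases ξ' with
        | nil => exact IsReduced.nil
        | cons y w => exact ((FreeGroup.isReduced_cons_cons).1 hξ).2
      have hI := ih ξ' hw' hξ' n
      rw [List.length_cons, Finset.sum_range_succ']
      simp only [f_cons_cons, f_zero _ _ hξ, List.length_cons]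
      by_cases e : ξ'.length + 1 = n
      · have := hI.2 (by omega)
        rw [if_pos e]
        refine ⟨by omega, fun h => by omega⟩
      · rw [if_neg e]
        refine ⟨by omega, fun h => ?_⟩
        have := hI.2 (by omega)
        omega

lemma mem_ball (M : ℕ) (l : List Lt) : l ∈ ball M ↔ l.length ≤ M := by
  unfold ball
  rw [Set.Finite.mem_toFinset]
  rfl

lemma KL_nonneg {K : G → ℝ} (hK : ∀ g, 0 ≤ K g) (l : List Lt) : 0 ≤ KL K l := by
  unfold KL
  split_ifs
  · exact hK _
  · exact le_refl _

lemma XL_some_aux (n : ℕ) : ∀ (w : List Lt) (i : ℕ) (l : List Lt),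
    l ∈ XL n ((w.take i).map some) → l ∈ XL n (w.map some) := by
  intro w
  induction w with
  | nil => intro i l h; simpa using h
  | cons x w ih =>
    intro i l h
    have hno : ∀ u : List Lt, (none : Option Lt) ∉ u.map some := by
      intro u hu
      rw [List.mem_map] at hu
      obtain ⟨a, _, e⟩ := hu
      cases e
    rcases i with _ | i
    · have h1 : l ∈ ball n := h
      rw [List.map_cons]
      unfold XL
      rw [if_neg (hno w)]
      exact Finset.mem_union_right _ h1
    · rw [List.take_succ_cons, List.map_cons] at h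
      unfold XL at h
      rw [if_neg (hno _)] at h
      rw [List.map_cons]
      unfold XL
      rw [if_neg (hno w)]
      rw [Finset.mem_union] at h ⊢
      rcases h with h | h
      · left
        rw [Finset.mem_image] at h ⊢
        obtain ⟨a, ha, e⟩ := h
        exact ⟨a, ih i a ha, e⟩
      · exact Or.inr h


lemma mem_XL_take (hcov : S_COV) (n : ℕ) (w l : List Lt) (hw : IsReduced w) (hl : IsReduced l)
    (hn : l.length ≤ n) (i : ℕ) : reduce (w.take i ++ l) ∈ XL n (w.map some) := by
  apply XL_some_aux n w i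
  have h1 : IsReduced (w.take i) := Pool.Agent.W211.AF.isRed_of_sub hw ⟨[], w.drop i, by simp⟩
  have h2 := hcov n (w.take i) l [] h1 hl ((mem_ball n l).2 hn)
  rcases h2 with ⟨π', hπ, h3⟩ | h3
  · cases e : (w.take i).reverse with
    | nil =>
      rw [e] at hπ
      have : π' = [] := by simpa [cov] using hπ
      subst this
      have e2 : w.take i = [] := List.reverse_eq_nil_iff.1 e
      rw [e2] at h3 ⊢
      exact h3
    | cons a b =>
      rw [e] at hπ
      simp [cov] at hπ
  · exact h3

lemma step (hcov : S_COV) (K : G → ℝ) (hK : ∀ g, 0 ≤ K g) (n : ℕ) (w : List Lt)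
    (hw : IsReduced w) :
    ∑ l ∈ ((ball n).filter (fun l => l.length = n)).filter (fun l => reduce l = l),
      ∑ i ∈ Finset.range (w.length + 1), K (mk (w.take i) * mk l) ≤
    2 * P K n (w.map some) := by
  classical
  set R := ((ball n).filter (fun l => l.length = n)).filter (fun l => reduce l = l) with hR
  have hRl : ∀ l ∈ R, l.length = n ∧ reduce l = l := by
    intro l hl
    rw [hR, Finset.mem_filter, Finset.mem_filter] at hl
    exact ⟨hl.1.2, hl.2⟩
  let φ : List Lt × ℕ → List Lt := fun p => reduce (w.take p.2 ++ p.1)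
  have hφmk : ∀ p, (mk (φ p) : G) = mk (w.take p.2) * mk p.1 := by
    intro p
    change (mk (reduce (w.take p.2 ++ p.1)) : G) = _
    rw [reduce.self, mul_mk]
  have hφr : ∀ p, reduce (φ p) = φ p := fun p => reduce.idem
  rw [← Finset.sum_product' R (Finset.range (w.length + 1))
    (fun l i => K (mk (w.take i) * mk l))]
  have e1 : ∀ p ∈ R ×ˢ Finset.range (w.length + 1),
      K (mk (w.take p.2) * mk p.1) = KL K (φ p) := by
    intro p _
    unfold KL
    rw [if_pos (hφr p), hφmk]
  rw [Finset.sum_congr rfl e1]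
  have hmaps : ∀ p ∈ R ×ˢ Finset.range (w.length + 1), φ p ∈ XL n (w.map some) := by
    intro p hp
    rw [Finset.mem_product] at hp
    have := hRl p.1 hp.1
    exact mem_XL_take hcov n w p.1 hw (IsReduced.of_reduce_eq this.2) this.1.le p.2
  rw [← Finset.sum_fiberwise_of_maps_to hmaps]
  unfold P
  rw [Finset.mul_sum]
  apply Finset.sum_le_sum
  intro y _
  have e2 : ∀ p ∈ (R ×ˢ Finset.range (w.length + 1)).filter (fun p => φ p = y),
      KL K (φ p) = KL K y := by
    intro p hp
    rw [(Finset.mem_filter.1 hp).2]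
  rw [Finset.sum_congr rfl e2, Finset.sum_const, nsmul_eq_mul]
  apply mul_le_mul_of_nonneg_right _ (KL_nonneg hK y)
  by_cases hy : reduce y = y
  · have hyr : IsReduced y := IsReduced.of_reduce_eq hy
    have hc : ((R ×ˢ Finset.range (w.length + 1)).filter (fun p => φ p = y)).card ≤
        ((Finset.range (w.length + 1)).filter (fun i => f w y i = n)).card := by
      apply Finset.card_le_card_of_injOn (fun p => p.2)
      · intro p hp
        rw [Finset.mem_coe, Finset.mem_filter, Finset.mem_product] at hp
        obtain ⟨⟨h1, h2⟩, h3⟩ := hp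
        rw [Finset.mem_coe, Finset.mem_filter]
        refine ⟨h2, ?_⟩
        have h4 := hφmk p
        rw [h3] at h4
        unfold f
        rw [h4, inv_mul_cancel_left, toWord_mk, (hRl _ h1).2, (hRl _ h1).1]
      · intro p hp q hq e
        rw [Finset.mem_coe, Finset.mem_filter, Finset.mem_product] at hp hq
        obtain ⟨⟨h1, h2⟩, h3⟩ := hp
        obtain ⟨⟨h1', h2'⟩, h3'⟩ := hq
        have h4 := hφmk p
        have h5 := hφmk q
        rw [h3] at h4
        rw [h3'] at h5
        have e' : p.2 = q.2 := e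
        rw [h4, e'] at h5
        have h6 := mul_left_cancel h5
        have h7 := congrArg FreeGroup.toWord h6
        rw [toWord_mk, toWord_mk, (hRl _ h1).2, (hRl _ h1').2] at h7
        exact Prod.ext h7 e'
    have hc2 := (count w y hw hyr n).1
    rw [← Finset.card_filter] at hc2
    have := hc.trans hc2
    exact_mod_cast this
  · have : (R ×ˢ Finset.range (w.length + 1)).filter (fun p => φ p = y) = ∅ := by
      apply Finset.filter_eq_empty_iff.2
      rintro p _ rfl
      exact hy (hφr p)
    rw [this]
    norm_num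

theorem main : S_STA := by
  classical
  intro hcov al K F Q r hS hT n
  set R := ((ball n).filter (fun l => l.length = n)).filter (fun l => reduce l = l) with hR
  have hRl : ∀ l ∈ R, l.length = n ∧ reduce l = l := by
    intro l hl
    rw [hR, Finset.mem_filter, Finset.mem_filter] at hl
    exact ⟨hl.1.2, hl.2⟩
  have eS : Sph K n = ∑ l ∈ R, K (mk l) := by
    unfold Sph KL
    rw [hR, Finset.sum_filter (p := fun l => reduce l = l)]
  have hTn : 0 ≤ T K n := by
    unfold T
    exact Finset.sum_nonneg (fun l _ => KL_nonneg hS.K0 l)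
  have hF : 0 ≤ ∑' g, F g := tsum_nonneg hS.F0
  have hP : ∀ w : List Lt, P K n (w.map some) ≤ 3 * (2 * T K n + 8 * ∑' g, F g) := by
    intro w
    have h1 := hT n (w.map some)
    have hno : (none : Option Lt) ∉ w.map some := by
      intro hu
      rw [List.mem_map] at hu
      obtain ⟨a, _, e⟩ := hu
      cases e
    rw [List.count_eq_zero_of_not_mem hno, pow_zero, one_mul, if_neg hno] at h1
    refine h1.trans ?_
    apply mul_le_mul_of_nonneg_right _ (by positivity)
    split_ifs <;> norm_num
  have hQ : ∑ l ∈ R, Q (mk l) ≤ ∑' g, Q g := by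
    have hinj : Set.InjOn (fun l : List Lt => (mk l : G)) R := by
      intro a ha b hb e
      have h7 := congrArg FreeGroup.toWord e
      simp only [toWord_mk] at h7
      rw [(hRl _ ha).2, (hRl _ hb).2] at h7
      exact h7
    rw [← Finset.sum_image (f := Q) hinj]
    exact hS.Q1.sum_le_tsum _ (fun g _ => hS.Q0 g)
  rw [eS, Finset.mul_sum]
  have h1 : ∑ l ∈ R, al * K (mk l) ≤ ∑ l ∈ R, (Q (mk l) + r.sum fun s c =>
      c * ∑ i ∈ Finset.range (s.toWord.length + 1), K (mk (s.toWord.take i) * mk l)) :=
    Finset.sum_le_sum (fun l _ => hS.h3 (mk l))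
  refine h1.trans ?_
  rw [Finset.sum_add_distrib]
  apply add_le_add hQ
  simp only [Finsupp.sum]
  rw [Finset.sum_comm]
  have h2 : ∀ s ∈ r.support, ∑ l ∈ R, r s * ∑ i ∈ Finset.range (s.toWord.length + 1),
      K (mk (s.toWord.take i) * mk l) ≤ r s * (6 * (2 * T K n + 8 * ∑' g, F g)) := by
    intro s _
    rw [← Finset.mul_sum]
    apply mul_le_mul_of_nonneg_left _ (hS.r0 s)
    have h3 := step hcov K hS.K0 n s.toWord isReduced_toWord
    have h4 := hP s.toWord
    rw [← hR] at h3
    linarith
  refine (Finset.sum_le_sum h2).trans ?_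
  rw [← Finset.sum_mul]
  have h5 : ∑ s ∈ r.support, r s ≤ 1 / 10000 := hS.r1
  have h6 : (∑ s ∈ r.support, r s) * (6 * (2 * T K n + 8 * ∑' g, F g)) ≤
      1 / 10000 * (6 * (2 * T K n + 8 * ∑' g, F g)) :=
    mul_le_mul_of_nonneg_right h5 (by positivity)
  refine h6.trans (le_of_eq ?_)
  ring

end Pool.Agent.W211.AF.StaC
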