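import Pool.Agent.W211.AF.Stm

set_option autoImplicit false

namespace Pool.Agent.W211.AF

open FreeGroup

theorem mem_ball {M : ℕ} {l : List Lt} : l ∈ ball M ↔ l.length ≤ M := by
  simp [ball]

theorem KL_nonneg {K : G → ℝ} (h : ∀ g, 0 ≤ K g) (l : List Lt) : 0 ≤ KL K l := by
  unfold KL; split_ifs
  · exact h _
  · exact le_rfl

theorem KL_toWord (K : G → ℝ) (g : G) : KL K g.toWord = K g := by
  unfold KL
  rw [if_pos (by rw [reduce_toWord]), mk_toWord]

theorem T_nonneg {K : G → ℝ} (h : ∀ g, 0 ≤ K g) (M : ℕ) : 0 ≤ T K M :=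
  Finset.sum_nonneg fun l _ => KL_nonneg h l

theorem PP_nonneg {K : G → ℝ} (h : ∀ g, 0 ≤ K g) (M : ℕ) : 0 ≤ PP K M :=
  Finset.sum_nonneg fun l _ => KL_nonneg h l

theorem Sph_nonneg {K : G → ℝ} (h : ∀ g, 0 ≤ K g) (M : ℕ) : 0 ≤ Sph K M :=
  Finset.sum_nonneg fun l _ => KL_nonneg h l

theorem T_succ (K : G → ℝ) (M : ℕ) : T K (M + 1) = T K M + Sph K (M + 1) := by
  unfold T Sph
  rw [← Finset.sum_filter_add_sum_filter_not (ball (M + 1)) (fun l => l.length ≤ M)]
  congr 1
  · apply Finset.sum_congr _ fun _ _ => rfl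
    ext l
    simp only [Finset.mem_filter, mem_ball]
    omega
  · apply Finset.sum_congr _ fun _ _ => rfl
    ext l
    simp only [Finset.mem_filter, mem_ball]
    omega

theorem ppb : S_PPB := by
  intro K F hK hF hT M
  have h1 : PP K M ≤ P K M [none] := by
    unfold PP P
    apply Finset.sum_le_sum_of_subset_of_nonneg
    · intro l hl
      rw [Finset.mem_filter, mem_ball] at hl
      obtain ⟨hl1, hl2⟩ := hl
      cases l with
      | nil => simp [posHead] at hl2
      | cons x l' =>
        obtain ⟨i, b⟩ := x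
        cases b with
        | false => simp [posHead] at hl2
        | true =>
          simp only [XL, Finset.mem_union, Finset.mem_image, mem_ball]
          simp only [List.length_cons] at hl1
          fin_cases i
          · left; exact ⟨l', by omega, rfl⟩
          · right; exact ⟨l', by omega, rfl⟩
    · intro l _ _
      exact KL_nonneg hK l
  have h2 := hT M [none]
  have h3 : negHead [none] = false := rfl
  rw [h3] at h2
  simp only [List.count_cons_self, List.count_nil, zero_add, pow_one, Bool.false_eq_true,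
    if_false, List.mem_singleton, if_true, one_mul] at h2
  refine h1.trans (h2.trans (le_of_eq ?_))
  ring

theorem core (hCOV : S_COV) (hCOVS : S_COVS) (hAPR : S_APR) (hREC : S_REC) (hTHIN : S_THIN)
    (hSTA : S_STA) (hSTB : S_STB) : S_CORE := by
  intro al K F Q r hS
  have hT : Thin K F := hTHIN hCOV hCOVS hAPR hREC al K F Q r hS
  have hK := hS.K0
  have hFs : 0 ≤ ∑' g, F g := tsum_nonneg hS.F0
  have hQs : 0 ≤ ∑' g, Q g := tsum_nonneg hS.Q0
  have key : ∀ M, T K M ≤ 1000 * ((∑' g, F g) + ∑' g, Q g) := by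
    intro M
    have hA : ∀ n, T K (n + 1) * (1 - 12 / 5590) ≤
        T K n + ((∑' g, Q g) + 48 / 10000 * ∑' g, F g) / (559 / 1000) := by
      intro n
      have h1 := hSTA hCOV al K F Q r hS hT (n + 1)
      have h2 := T_succ K n
      have h3 := Sph_nonneg hK (n + 1)
      have h4 : 559 / 1000 * Sph K (n + 1) ≤ al * Sph K (n + 1) :=
        mul_le_mul_of_nonneg_right hS.al1 h3
      have h5 : Sph K (n + 1) ≤ ((∑' g, Q g) + 2 / 10000 * (6 * T K (n + 1) + 24 * ∑' g, F g))
          / (559 / 1000) := by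
        rw [le_div_iff₀ (by norm_num)]
        linarith
      have h6 : ((∑' g, Q g) + 2 / 10000 * (6 * T K (n + 1) + 24 * ∑' g, F g)) / (559 / 1000)
          = ((∑' g, Q g) + 48 / 10000 * ∑' g, F g) / (559 / 1000)
            + T K (n + 1) * (12 / 5590) := by ring
      linarith
    have h1 := hSTB hCOV al K F Q r hS hT M
    have h2 := ppb K F hK hS.F0 hT M
    have h3 := ppb K F hK hS.F0 hT (M + 2)
    have h4 := hA M
    have h5 := hA (M + 1)
    have t0 := T_nonneg hK M
    have t1 := T_nonneg hK (M + 1)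
    have t2 := T_nonneg hK (M + 2)
    have p0 := PP_nonneg hK M
    have p2 := PP_nonneg hK (M + 2)
    have a1 : 559 / 1000 * T K M ≤ al * T K M := mul_le_mul_of_nonneg_right hS.al1 t0
    have a2 : al * PP K M ≤ 5591 / 10000 * PP K M := mul_le_mul_of_nonneg_right hS.al2 p0
    have a3 : al * PP K (M + 2) ≤ 5591 / 10000 * PP K (M + 2) :=
      mul_le_mul_of_nonneg_right hS.al2 p2
    have e1 : al * (2 * T K M - PP K M) = 2 * (al * T K M) - al * PP K M := by ring
    rw [e1] at h1
    have e2 : M + 1 + 1 = M + 2 := rfl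
    rw [e2] at h5
    set q := ∑' g, Q g
    set f := ∑' g, F g
    have hc : (q + 48 / 10000 * f) / (559 / 1000) ≤ 2 * q + f := by
      rw [div_le_iff₀ (by norm_num)]; linarith
    nlinarith
  refine summable_of_sum_le hK (c := 1000 * ((∑' g, F g) + ∑' g, Q g)) ?_
  intro u
  obtain ⟨M, hM⟩ : ∃ M : ℕ, ∀ g ∈ u, g.toWord.length ≤ M :=
    ⟨u.sup (fun g => g.toWord.length), fun g hg => Finset.le_sup (f := fun g : G =>
      g.toWord.length) hg⟩
  refine le_trans ?_ (key M)
  have h1 : ∑ g ∈ u, K g = ∑ l ∈ u.image (fun g : G => g.toWord), KL K l := by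
    rw [Finset.sum_image (fun x _ y _ h => toWord_injective h)]
    exact Finset.sum_congr rfl fun g _ => (KL_toWord K g).symm
  rw [h1]
  apply Finset.sum_le_sum_of_subset_of_nonneg
  · intro l hl
    obtain ⟨g, hg, rfl⟩ := Finset.mem_image.1 hl
    exact mem_ball.2 (hM g hg)
  · intro l _ _
    exact KL_nonneg hK l

end Pool.Agent.W211.AF
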