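import Pool.Agent.W211.AF.Stm
import Pool.Agent.Results.MP_11aa79_an.NotFactor

/-!
Project AF, analytic part: statements. Uses the definitions and lemmas of the starting file
NotFactor (InI0, convProd, Kap.H = square summable functions, Kap.conv, Kap.rconv, Kap.kaplansky,
Main.cv = convProd, Main.conv_conv, Fac.zz = 1 - A i - B j, Fac.tau = branch sums, Words.st).
-/

set_option autoImplicit false

namespace Pool.Agent.W211.AF

open FreeGroup
open Pool.Agent.Results.MP_11aa79_an.NotFactor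
open Pool.Agent.Results.MP_11aa79_an.NotFactor.Kap
open Pool.Agent.Results.MP_11aa79_an.NotFactor.Fac

/-- ELL2: left convolution by z - R is onto on square summable functions (we only need that
delta is in the range). -/
def S_ELL2 : Prop := ∀ A B : ℂ, ‖A‖ = Real.sqrt 5 / 4 → ‖B‖ = Real.sqrt 5 / 4 →
  ∀ R : G → ℂ, (Summable fun g => ‖R g‖) → ∑' g, ‖R g‖ ≤ 1 / 100 →
  ∃ x : H G, conv (fun g => zz (0 : Fin 2) 1 A B g - R g) x = lp.single 2 1 1

/-- FIN: reduction to finitely supported factors. -/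
def S_FIN : Prop := ∀ z b c : G → ℂ, (Summable fun g => ‖z g‖) → InI0 b → InI0 c → ∀ ε : ℝ,
  ∑' g, ‖convProd b c g - z g‖ < ε →
  ∃ p q : G → ℂ, (Function.support p).Finite ∧ (Function.support q).Finite ∧ InI0 p ∧ InI0 q ∧
    ∑' g, ‖convProd p q g - z g‖ < ε

/-- The remainder R = z - p * q. -/
noncomputable def RR (A B : ℂ) (p q : G → ℂ) (g : G) : ℂ :=
  zz (0 : Fin 2) 1 A B g - convProd p q g

/-- ID1: k * (p * q) = q, written out. -/
def S_ID1 : Prop := ∀ (A B : ℂ) (p q : G → ℂ), (Function.support p).Finite →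
  (Function.support q).Finite → ∀ k : H G, conv p k = lp.single 2 1 1 →
  ∀ x, k x = q x + A * k (x * (of 0)⁻¹) + B * k (x * (of 1)⁻¹)
    + ∑' s, RR A B p q s * k (x * s⁻¹)

/-- TAU: the branch sums of a finitely supported function with sum zero have finite support, and
for the remainder they are controlled by prefixes. -/
def S_TAU : Prop := ∀ q : G → ℂ, (Function.support q).Finite → ∑' g, q g = 0 →
  (Function.support (tau q (0 : Fin 2))).Finite ∧
  ∀ g, ‖tau q (0 : Fin 2) g‖ ≤ ∑' s, ‖q s‖ *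
    (if ∃ i ≤ s.toWord.length, g = mk (s.toWord.take i) then 1 else 0)

/-- ID2: the flux identity k * tau (p * q) = tau q, written out. -/
def S_ID2 : Prop := S_TAU → ∀ (A B : ℂ), A + B = 1 → ∀ (p q : G → ℂ), (Function.support p).Finite →
  (Function.support q).Finite → InI0 p → InI0 q → ∀ k : H G, conv p k = lp.single 2 1 1 →
  ∀ y, A * k y = - tau q (0 : Fin 2) y - ∑' g, tau (RR A B p q) (0 : Fin 2) g * k (y * g⁻¹)

/-- SYS: everything together. -/
def S_SYS : Prop := S_ID1 → S_TAU → S_ID2 → ∀ (A B : ℂ), A + B = 1 → ‖A‖ = Real.sqrt 5 / 4 →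
  ‖B‖ = Real.sqrt 5 / 4 → ∀ (p q : G → ℂ), (Function.support p).Finite →
  (Function.support q).Finite → InI0 p → InI0 q →
  ∑' g, ‖convProd p q g - zz (0 : Fin 2) 1 A B g‖ < 1 / 10000 →
  ∀ k : H G, conv p k = lp.single 2 1 1 →
  ∃ (Q : G → ℝ) (r : G →₀ ℝ),
    Sys (Real.sqrt 5 / 4) (fun g => ‖k g⁻¹‖) (fun g => ‖q g⁻¹‖) Q r

end Pool.Agent.W211.AF
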