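import Pool.Agent.W211.AF.Core
import Pool.Agent.W211.AF.Stm2

set_option autoImplicit false

namespace Pool.Agent.W211.AF

open FreeGroup
open Pool.Agent.Results.MP_11aa79_an.NotFactor
open Pool.Agent.Results.MP_11aa79_an.NotFactor.Kap
open Pool.Agent.Results.MP_11aa79_an.NotFactor.Main
open Pool.Agent.Results.MP_11aa79_an.NotFactor.Fac

theorem summable_zz (A B : ℂ) : Summable (zz (0 : Fin 2) 1 A B) := by
  have hd : ∀ c : FreeGroup (Fin 2),
      Summable (fun g : FreeGroup (Fin 2) => if g = c then (1 : ℂ) else 0) :=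
    fun c => (hasSum_ite_eq c 1).summable
  unfold zz
  exact ((hd _).sub ((hd _).mul_left A)).sub ((hd _).mul_left B)

theorem tsum_zz_eq {A B : ℂ} (hAB : A + B = 1) : ∑' g, zz (0 : Fin 2) 1 A B g = 0 := by
  have h01 : (0 : Fin 2) ≠ 1 := by decide
  have h3 := tsum_zz h01 A B (fun _ => (1 : ℂ)) 1
  simp only [mul_one] at h3
  rw [h3]
  linear_combination -hAB

theorem inI0_zz {A B : ℂ} (hAB : A + B = 1) : InI0 (zz (0 : Fin 2) 1 A B) :=
  ⟨(summable_zz A B).norm, tsum_zz_eq hAB⟩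

theorem inI0_conv {b c : G → ℂ} (hb : InI0 b) (hc : InI0 c) : InI0 (convProd b c) := by
  refine ⟨summable_cv hb.1 hc.1, ?_⟩
  have h := tsum_cv hb.1 hc.1
  rw [hb.2, zero_mul] at h
  exact h

theorem last (hCORE : S_CORE) (hELL2 : S_ELL2) (hFIN : S_FIN) (hID1 : S_ID1) (hTAU : S_TAU)
    (hID2 : S_ID2) (hSYS : S_SYS) (A B : ℂ) (hAB : A + B = 1) (hA : ‖A‖ = Real.sqrt 5 / 4)
    (hB : ‖B‖ = Real.sqrt 5 / 4) (b c : G → ℂ) (hb : InI0 b) (hc : InI0 c) :
    1 / 10000 ≤ ∑' g, ‖convProd b c g - zz (0 : Fin 2) 1 A B g‖ := by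
  by_contra hcon
  push Not at hcon
  obtain ⟨p, q, hpf, hqf, hp, hq, hpq⟩ :=
    hFIN (zz (0 : Fin 2) 1 A B) b c (summable_zz A B).norm hb hc (1 / 10000) hcon
  -- the remainder
  have hpqI := inI0_conv hp hq
  have hRs : Summable fun g => ‖RR A B p q g‖ := by
    unfold RR
    have h1 := (summable_zz A B).sub hpqI.1.of_norm
    exact h1.norm
  have hR1 : ∑' g, ‖RR A B p q g‖ ≤ 1 / 100 := by
    have h1 : ∀ g, ‖RR A B p q g‖ = ‖convProd p q g - zz (0 : Fin 2) 1 A B g‖ := by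
      intro g
      unfold RR
      rw [norm_sub_rev]
    simp_rw [h1]
    linarith
  obtain ⟨x, hx⟩ := hELL2 A B hA hB (RR A B p q) hRs hR1
  have hz : (fun g => zz (0 : Fin 2) 1 A B g - RR A B p q g) = cv p q := by
    funext g
    unfold RR
    simp only [sub_sub_cancel]
    rfl
  rw [hz] at hx
  set k : H G := conv q x with hk
  have hkd : conv p k = lp.single 2 1 1 := by
    rw [hk, conv_conv hp.1 hq.1]
    exact hx
  obtain ⟨Q, r, hS⟩ := hSYS hID1 hTAU hID2 A B hAB hA hB p q hpf hqf hp hq hpq k hkd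
  have hsum := hCORE _ _ _ _ _ hS
  have hksum : Summable fun g => ‖k g‖ := by
    have h1 := (Equiv.inv G).summable_iff.2 hsum
    refine h1.congr (fun g => ?_)
    simp
  have h3 := tsum_cv hp.1 hksum
  rw [hp.2, zero_mul] at h3
  have h4 : ∀ t, cv p (fun g => k g) t = if t = 1 then 1 else 0 := by
    intro t
    have h5 : cv p (fun g => k g) t = conv p k t := (conv_apply hp.1 k t).symm
    rw [h5, hkd, del_apply]
  simp_rw [h4] at h3
  rw [tsum_ite_eq] at h3
  exact one_ne_zero h3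

end Pool.Agent.W211.AF
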