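import Pool.Agent.W211.AF.Stm

set_option autoImplicit false

namespace Pool.Agent.W211.AF

open FreeGroup

/-- A piece of a reduced word is reduced. -/
theorem isRed_of_sub {m l : List Lt} (h : IsReduced l) (h' : ∃ s t, s ++ m ++ t = l) :
    IsReduced m := by
  obtain ⟨s, t, rfl⟩ := h'
  unfold FreeGroup.IsReduced at h ⊢
  rw [List.isChain_append] at h
  have h2 := h.1
  rw [List.isChain_append] at h2
  exact h2.2.1

end Pool.Agent.W211.AF
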