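import Mathlib

/-!
Project AF (MP_11aa79_an, Q2: are the products of two elements of the augmentation ideal of
l1(F_2) dense?  Answer: no, a ball of radius 1/10000 around z = 1 - A a - B b contains no product).
Combinatorial part: definitions and statements. Everything is about the free group on two
generators and its reduced words.
-/

set_option autoImplicit false

namespace Pool.Agent.W211.AF

open FreeGroup

/-- The free group on two generators. -/
abbrev G := FreeGroup (Fin 2)

/-- Letters: (i, true) is the generator i, (i, false) its inverse. Positive letter: second entry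
true. -/
abbrev Lt := Fin 2 × Bool

/-- A function on the group, read on words: zero on words that are not reduced. -/
def KL (K : G → ℝ) (l : List Lt) : ℝ := if reduce l = l then K (mk l) else 0

/-- All words of length at most M. -/
noncomputable def ball (M : ℕ) : Finset (List Lt) := (List.finite_length_le Lt M).toFinset

/-- The sum of K over the ball of radius M of the group. -/
noncomputable def T (K : G → ℝ) (M : ℕ) : ℝ := ∑ l ∈ ball M, KL K l

/-- The sum of K over the sphere of radius M of the group. -/
noncomputable def Sph (K : G → ℝ) (M : ℕ) : ℝ :=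
  ∑ l ∈ (ball M).filter (fun l => l.length = M), KL K l

/-- Words whose first letter is positive. -/
def posHead : List Lt → Bool
  | (_, true) :: _ => true
  | _ => false

/-- The sum of K over the elements of length at most M whose first letter is positive. -/
noncomputable def PP (K : G → ℝ) (M : ℕ) : ℝ :=
  ∑ l ∈ (ball M).filter (fun l => posHead l = true), KL K l

/-- Patterns: words in letters and wildcards (none); a wildcard stands for a positive letter. -/
abbrev Pat := List (Option Lt)

/-- Patterns whose first entry is a known negative letter. -/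
def negHead : Pat → Bool
  | some (_, false) :: _ => true
  | _ => false

/-- The words l = l1 ++ l2 where l1 matches an initial piece of the pattern that contains all
its wildcards, and l2 has length at most M. -/
noncomputable def XL (M : ℕ) : Pat → Finset (List Lt)
  | [] => ball M
  | none :: π => (XL M π).image (fun l => ((0 : Fin 2), true) :: l) ∪
      (XL M π).image (fun l => ((1 : Fin 2), true) :: l)
  | some y :: π => (XL M π).image (fun l => y :: l) ∪ (if none ∈ π then ∅ else ball M)

/-- The sum of K over the set of a pattern. -/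
noncomputable def P (K : G → ℝ) (M : ℕ) (π : Pat) : ℝ := ∑ l ∈ XL M π, KL K l

/-- The number of entries after the last wildcard. -/
def tl : Pat → ℕ
  | [] => 0
  | x :: π => if none ∈ π then tl π else if x = none then π.length else π.length + 1

/-- Cover of s * (set of the pattern); the first argument is the word s REVERSED. -/
def cov : List Lt → Pat → List Pat
  | [], π => [π]
  | _ :: _, [] => []
  | x :: σ, none :: π => ((x :: σ).reverse.map some ++ none :: π) ::
      (if x.2 = false then cov σ π else [])
  | x :: σ, some y :: π =>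
      if y = (x.1, !x.2) then cov σ π else [(x :: σ).reverse.map some ++ some y :: π]

/-- The data: K, F, Q nonnegative on the group, r finitely supported of total mass at most
1/10000, al is about sqrt 5 / 4. -/
structure Sys (al : ℝ) (K F Q : G → ℝ) (r : G →₀ ℝ) : Prop where
  al1 : 559 / 1000 ≤ al
  al2 : al ≤ 5591 / 10000
  K0 : ∀ g, 0 ≤ K g
  F0 : ∀ g, 0 ≤ F g
  Q0 : ∀ g, 0 ≤ Q g
  r0 : ∀ g, 0 ≤ r g
  K2 : Summable fun g => K g ^ 2
  F1 : Summable F
  Q1 : Summable Q
  r1 : (r.sum fun _ c => c) ≤ 1 / 10000
  /-- growth equation -/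
  h1 : ∀ g, K g ≤ F g + al * (K (of 0 * g) + K (of 1 * g)) + r.sum fun s c => c * K (s * g)
  h2 : ∀ g, al * K (of 0 * g) ≤ K g + F g + al * K (of 1 * g) + r.sum fun s c => c * K (s * g)
  h2' : ∀ g, al * K (of 1 * g) ≤ K g + F g + al * K (of 0 * g) + r.sum fun s c => c * K (s * g)
  /-- flux inequality -/
  h3 : ∀ g, al * K g ≤ Q g + r.sum fun s c =>
    c * ∑ i ∈ Finset.range (s.toWord.length + 1), K (mk (s.toWord.take i) * g)

/-- COV: the cover lemma for words. -/
def S_COV : Prop := ∀ (M : ℕ) (s l : List Lt) (π : Pat), IsReduced s → IsReduced l → l ∈ XL M π →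
  (∃ π' ∈ cov s.reverse π, reduce (s ++ l) ∈ XL M π') ∨ reduce (s ++ l) ∈ XL M (s.map some)

/-- COVS: number of wildcards and tails in the cover. -/
def S_COVS : Prop := ∀ (σ : List Lt) (π : Pat),
  ((cov σ π).map (fun π' => ((3 : ℝ) / 2) ^ (π'.count none))).sum
      ≤ 3 * (3 / 2) ^ (π.count none) - 2 ∧
  (∀ π' ∈ cov σ π, tl π' ≤ tl π + σ.length) ∧ tl (σ.map some) ≤ σ.length ∧
  (σ.map (some : Lt → Option Lt)).count none = 0

/-- APR: a priori bound. -/
def S_APR : Prop := ∀ (K : G → ℝ), (∀ g, 0 ≤ K g) → (Summable fun g => K g ^ 2) → ∀ M : ℕ,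
  ∃ A : ℝ, 0 ≤ A ∧ ∀ π : Pat, P K M π ≤ (3 / 2) ^ (π.count none) * (A * (tl π + 1))

/-- REC: one step of the recursion. -/
def S_REC : Prop := S_COV → ∀ (al : ℝ) (K F Q : G → ℝ) (r : G →₀ ℝ), Sys al K F Q r → ∀ (M : ℕ) (π : Pat),
  P K M π ≤ (if none ∈ π then 0 else T K M) + (∑' g, F g) + al * P K M (none :: π)
    + (if negHead π = true then al * P K M π.tail else 0)
    + r.sum fun s c => c * (((cov s.toWord.reverse π).map (P K M)).sum
        + P K M (s.toWord.map some))

/-- THIN, the conclusion: bounds for all pattern sums. -/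
def Thin (K F : G → ℝ) : Prop := ∀ (M : ℕ) (π : Pat),
  P K M π ≤ (3 / 2) ^ (π.count none) *
    ((if negHead π = true then 3 else 1) *
     (if none ∈ π then 12 / 1000 * T K M + 8 * ∑' g, F g else 2 * T K M + 8 * ∑' g, F g))

/-- THIN. -/
def S_THIN : Prop := S_COV → S_COVS → S_APR → S_REC →
  ∀ (al : ℝ) (K F Q : G → ℝ) (r : G →₀ ℝ), Sys al K F Q r → Thin K F

/-- STA: the flux step. -/
def S_STA : Prop := S_COV → ∀ (al : ℝ) (K F Q : G → ℝ) (r : G →₀ ℝ), Sys al K F Q r → Thin K F →
  ∀ n : ℕ, al * Sph K n ≤ (∑' g, Q g) + 2 / 10000 * (6 * T K n + 24 * ∑' g, F g)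

/-- STB: the growth step. -/
def S_STB : Prop := S_COV → ∀ (al : ℝ) (K F Q : G → ℝ) (r : G →₀ ℝ), Sys al K F Q r → Thin K F →
  ∀ M : ℕ, al * (2 * T K M - PP K M) ≤ T K (M + 1) + (∑' g, F g) + al * PP K (M + 2)
    + 1 / 10000 * (6 * T K (M + 1) + 24 * ∑' g, F g)

/-- PPB: words with a positive first letter. -/
def S_PPB : Prop := ∀ (K F : G → ℝ), (∀ g, 0 ≤ K g) → (∀ g, 0 ≤ F g) → Thin K F →
  ∀ M : ℕ, PP K M ≤ 18 / 1000 * T K M + 12 * ∑' g, F g

/-- END: the conclusion of the combinatorial part. -/
def S_CORE : Prop := ∀ (al : ℝ) (K F Q : G → ℝ) (r : G →₀ ℝ), Sys al K F Q r → Summable K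

end Pool.Agent.W211.AF
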